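import Pool.Agent.Run7.h260.VU.Iface

/-!
# P4: reduction to the near part, with constants independent of `n`
-/

set_option autoImplicit false

namespace Run7.h221.VU

open Finset Filter Topology Metric
open Pool.Agent.W711.HT hiding bb
open Pool.Agent.Y472 Pool.Agent.Y472.K
open Pool.Agent.Y833.CB (EN rp rN gN EN_eq sum_near near_pt Tf_congr Tf_diff wE_bd wE_diff cauchy)
open Pool.Agent.Y482.Ph (nearS SB)
open Run7.h260.VC Run7.h260.VU
open GapVol (lob)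
open scoped Real

/-- the bound of the single configurations -/
def FB (n : ℕ) [NeZero n] (N : ℕ) (τ ρ B : ℝ) : Prop :=
  ∀ i j : Fin n → ℕ, Ok n N i j → ∀ χ : ℂ, |χ.re| ≤ π → |χ.im| ≤ τ →
    (ρ ≤ |χ.re| ∨ ∃ r, ρ ≤ |(i r : ℝ) / N - 2 / 3| ∨ ρ ≤ |(j r : ℝ) / N - 1 / 3|) →
    ‖co n N i j * Qc n N i j χ‖ ≤ B

variable {n : ℕ} [NeZero n]

/-- away from `χ = 0` -/
lemma Tf_gen {N : ℕ} (hN : 2 ≤ N) {τ ρ B : ℝ} (hB : 0 ≤ B)
    (h : ∀ i j : Fin n → ℕ, Ok n N i j → ∀ χ : ℂ, |χ.re| ≤ π → |χ.im| ≤ τ → ρ ≤ |χ.re| →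
      ‖co n N i j * Qc n N i j χ‖ ≤ B) (χ : ℂ) (h1 : |χ.re| ≤ π) (h2 : |χ.im| ≤ τ) (h3 : ρ ≤ |χ.re|) :
    ‖Tf N (wd n) χ‖ ≤ (N : ℝ) ^ (2 * n) * B := by
  obtain ⟨u, u', hu, hu', hc⟩ := hCJ N hN
  rw [Tf_sum hc, norm_mul, norm_uu hu hu', one_mul]
  exact sum_bd (Finset.Subset.refl _) hB fun c hc => h c.1 c.2 (mem_cfg.1 hc) χ h1 h2 h3

/-- the blocks -/
lemma Thi_gen {N : ℕ} (hN : 2 ≤ N) {τ B : ℝ} (hτ : 0 < τ) (hB : 0 ≤ B) (h : FB n N τ (1 / 6) B) : ∀ p < N,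
    (2 * p ≤ N → ‖Thi N (wd n) p‖ ≤ (N : ℝ) ^ (2 * n) * B) ∧
    (N ≤ 2 * p → ‖Tf N (wd n) (2 * π * p / N) - Thi N (wd n) p‖ ≤ (N : ℝ) ^ (2 * n) * B) := by
  intro p hp
  have hpi := Real.pi_pos
  have hN' : (0 : ℝ) < N := by
    have : 0 < N := by omega
    exact_mod_cast this
  obtain ⟨u, u', hu, hu', hc⟩ := hCJ N hN
  have hmk : ∀ k, ‖mk N p k‖ ≤ 1 := by
    intro k
    unfold Run7.h260.VC.mk
    split_ifs <;> simp
  have hprod : ∀ c : (Fin n → ℕ) × (Fin n → ℕ), ‖∏ r, mk N p (c.2 r) * mk N p (c.1 (r + 1))‖ ≤ 1 := by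
    intro c
    rw [norm_prod]
    refine Finset.prod_le_one (fun _ _ => norm_nonneg _) fun r _ => ?_
    rw [norm_mul]
    exact mul_le_one₀ (hmk _) (norm_nonneg _) (hmk _)
  have hprod01 : ∀ c : (Fin n → ℕ) × (Fin n → ℕ), (∏ r, mk N p (c.2 r) * mk N p (c.1 (r + 1))) ≠ 0 →
      (∏ r, mk N p (c.2 r) * mk N p (c.1 (r + 1))) = 1 := by
    intro c hc0
    rw [Finset.prod_ne_zero_iff] at hc0
    refine Finset.prod_eq_one fun r hr => ?_
    have := hc0 r hr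
    unfold Run7.h260.VC.mk at this ⊢
    split_ifs at this ⊢ <;> simp_all
  constructor
  · intro h2p
    rw [Thi_eq hc, norm_mul, norm_uu hu hu', one_mul]
    refine sum_bd (Finset.Subset.refl _) hB fun c hcc => ?_
    rw [norm_mul]
    by_cases h0 : (∏ r, mk N p (c.2 r) * mk N p (c.1 (r + 1))) = 0
    · rw [h0, norm_zero, zero_mul]
      exact hB
    · have h1 : mk N p (c.2 0) ≠ 0 := by
        have h0' := Finset.prod_ne_zero_iff.1 (show (∏ r, mk N p (c.2 r) * mk N p (c.1 (r + 1))) ≠ 0 from h0)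
        exact left_ne_zero_of_mul (h0' 0 (mem_univ _))
      have ep : (2 * π * (p : ℂ) / N : ℂ) = ((2 * π * p / N : ℝ) : ℂ) := by push_cast; rfl
      have h2 : N ≤ c.2 0 + p := by
        unfold Run7.h260.VC.mk at h1
        by_contra hcon
        rw [if_neg hcon] at h1
        exact h1 rfl
      have h3 := h c.1 c.2 (mem_cfg.1 hcc) (2 * π * p / N) (by
        rw [ep, Complex.ofReal_re, abs_of_nonneg (by positivity), div_le_iff₀ hN']
        have : (2 * p : ℝ) ≤ N := by exact_mod_cast h2p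
        nlinarith) (by
        rw [ep, Complex.ofReal_im, abs_zero]
        exact hτ.le) (Or.inr ⟨0, Or.inr (by
          have h4 : (N : ℝ) ≤ 2 * (c.2 0 : ℝ) := by
            have : N ≤ 2 * c.2 0 := by omega
            exact_mod_cast this
          have h6 : (1 : ℝ) / 2 ≤ (c.2 0 : ℝ) / N := by
            rw [le_div_iff₀ hN']
            linarith
          rw [abs_of_nonneg (by linarith)]
          linarith)⟩)
      calc _ ≤ 1 * ‖co n N c.1 c.2 * Qc n N c.1 c.2 (2 * π * p / N)‖ := by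
            gcongr
            exact hprod c
        _ ≤ _ := by rw [one_mul]; exact h3
  · intro h2p
    rw [Thi_eq hc, Tf_sum hc, ← mul_sub, ← sum_sub_distrib, norm_mul, norm_uu hu hu', one_mul]
    refine sum_bd (Finset.Subset.refl _) hB fun c hcc => ?_
    by_cases h0 : (∏ r, mk N p (c.2 r) * mk N p (c.1 (r + 1))) = 1
    · rw [h0, one_mul, sub_self, norm_zero]
      exact hB
    · have h0' : (∏ r, mk N p (c.2 r) * mk N p (c.1 (r + 1))) = 0 := by
        by_contra hcon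
        exact h0 (hprod01 c hcon)
      rw [h0', zero_mul, sub_zero]
      by_cases h1 : co n N c.1 c.2 * Qc n N c.1 c.2 (2 * π * p / N) = 0
      · rw [h1, norm_zero]
        exact hB
      have h2 := (mixed (mem_cfg.1 hcc) hp (by omega) h1 h0 0).1
      have hcos : Complex.cos (2 * π * p / N) = Complex.cos (2 * π * p / N - 2 * π) :=
        (Complex.cos_sub_two_pi _).symm
      rw [Qc_congr hcos]
      have e : (2 * π * p / N - 2 * π : ℂ) = ((2 * π * p / N - 2 * π : ℝ) : ℂ) := by push_cast; rfl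
      have hpN : (p : ℝ) ≤ N := by exact_mod_cast hp.le
      refine h c.1 c.2 (mem_cfg.1 hcc) (2 * π * p / N - 2 * π) ?_ ?_ (Or.inr ⟨0, Or.inl ?_⟩)
      · rw [e, Complex.ofReal_re, abs_le]
        have h3 : (N : ℝ) ≤ 2 * p := by exact_mod_cast h2p
        have h4 : π ≤ 2 * π * p / N := by
          rw [le_div_iff₀ hN']
          nlinarith
        have h6 : 2 * π * p / N ≤ 2 * π := by
          rw [div_le_iff₀ hN']
          nlinarith
        constructor <;> linarith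
      · rw [e, Complex.ofReal_im, abs_zero]
        exact hτ.le
      · have h4 : 2 * (c.1 0 : ℝ) ≤ N := by
          have : 2 * c.1 0 ≤ N := by omega
          exact_mod_cast this
        have h6 : (c.1 0 : ℝ) / N ≤ 1 / 2 := by
          rw [div_le_iff₀ hN']
          linarith
        rw [abs_sub_comm, abs_of_nonneg (by linarith)]
        linarith

/-- the configurations outside the neighbourhood -/
lemma rest_gen {N : ℕ} (hN : 2 ≤ N) {τ B ρ' : ℝ} (hB : 0 ≤ B) (hNρ : 1 / (N : ℝ) < ρ' / 2)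
    (h : FB n N τ (ρ' / 2) B) (χ : ℂ) (h1 : |χ.re| ≤ π) (h2 : |χ.im| ≤ τ) :
    ‖∑ c ∈ cfg n N, co n N c.1 c.2 * Qc n N c.1 c.2 χ -
      ∑ c ∈ NC n (fun _ => ρ') N, co n N c.1 c.2 * Qc n N c.1 c.2 χ‖ ≤ (N : ℝ) ^ (2 * n) * B := by
  classical
  have hN0 : 0 < N := by omega
  have hN' : (0 : ℝ) < N := by exact_mod_cast hN0
  have hsub : NC n (fun _ => ρ') N ⊆ cfg n N := by
    unfold NC
    exact Finset.filter_subset _ _
  rw [← Finset.sum_sdiff hsub, add_sub_cancel_right]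
  refine sum_bd (Finset.sdiff_subset) hB fun c hc =>
    h c.1 c.2 (mem_cfg.1 (mem_sdiff.1 hc).1) χ h1 h2 (Or.inr ?_)
  obtain ⟨hc1, hc2⟩ := Finset.mem_sdiff.1 hc
  have hok := mem_cfg.1 hc1
  have hex : ∃ r, ¬ (N - 1 - c.1 r ∈ Ws (1 / 3) ρ' N ∧ c.2 r ∈ Ws (1 / 3) ρ' N) := by
    by_contra hcon
    push Not at hcon
    apply hc2
    unfold NC
    simp only [mem_filter]
    exact ⟨hc1, hcon⟩
  obtain ⟨r, hr⟩ := hex
  refine ⟨r, ?_⟩
  rw [not_and_or] at hr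
  have hpos : 0 < 1 / (N : ℝ) := by positivity
  rcases hr with hr | hr
  · left
    rw [ws_mem hN0, not_and_or, not_le, not_lt] at hr
    have e : ((N - 1 - c.1 r : ℕ) : ℝ) / N = 1 - 1 / N - (c.1 r : ℝ) / N := by
      have := hok.lt r
      rw [show N - 1 - c.1 r = N - (1 + c.1 r) by omega, Nat.cast_sub (by omega)]
      push_cast
      field_simp
      ring
    rw [e] at hr
    rcases hr with hr | hr
    · rw [le_abs]
      left
      linarith
    · rw [le_abs]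
      right
      linarith
  · right
    rw [ws_mem hN0, not_and_or, not_le, not_lt] at hr
    rcases hr with hr | hr
    · rw [le_abs]
      right
      linarith
    · rw [le_abs]
      left
      linarith

lemma floor_lt {R : ℝ} (hR : 0 < R) (hR1 : R ≤ 1) {N : ℕ} (hN : 0 < N) :
    2 * ⌊R / 4 * N / (2 * π)⌋₊ < N := by
  have hπ := Real.pi_gt_three
  have hN' : (0 : ℝ) < N := by exact_mod_cast hN
  have hPle : ((⌊R / 4 * N / (2 * π)⌋₊ : ℕ) : ℝ) ≤ R / 4 * N / (2 * π) := Nat.floor_le (by positivity)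
  have h1 : (2 * (⌊R / 4 * N / (2 * π)⌋₊ : ℕ) : ℝ) < N := by
    have h2 : R / 4 * N / (2 * π) ≤ N / 24 := by
      rw [div_le_div_iff₀ (by positivity) (by norm_num)]
      nlinarith
    linarith
  exact_mod_cast h1

omit [NeZero n] in
/-- the error terms -/
lemma err_gen {N : ℕ} (hN2 : 2 ≤ N) {R τ E3 : ℝ} (hR : 0 < R) (hR1 : R ≤ 1) (hE : 0 ≤ E3) (m : ℤ)
    (tR : 1 / (N : ℝ) ≤ R / 8) (tτ : 1 / (N : ℝ) ≤ τ)
    (F2 : ∀ χ : ℂ, |χ.re| ≤ π → |χ.im| ≤ τ → R / 8 ≤ |χ.re| → ‖Tf N (wd n) χ‖ ≤ E3)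
    (F3 : ∀ p < N, (2 * p ≤ N → ‖Thi N (wd n) p‖ ≤ E3) ∧
      (N ≤ 2 * p → ‖Tf N (wd n) (2 * π * p / N) - Thi N (wd n) p‖ ≤ E3)) :
    ‖EN N (wd n) m - ∑ p ∈ Icc (-(⌊R / 4 * N / (2 * π)⌋₊ : ℤ)) ⌊R / 4 * N / (2 * π)⌋₊,
        deriv (fun χ => wE N m χ * Tf N (wd n) χ) (2 * π * p / N)‖ ≤
      (2 * |(m : ℝ)| * Real.exp (1 + 2 * |(m : ℝ)|) + Real.exp (1 + 2 * |(m : ℝ)|)) * N ^ 2 * E3 := by
  have hπ := Real.pi_gt_three
  set W : ℝ := Real.exp (1 + 2 * |(m : ℝ)|) with hW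
  have hW0 : 0 < W := Real.exp_pos _
  have hN0 : 0 < N := by omega
  have hN' : (0 : ℝ) < N := by exact_mod_cast hN0
  have hN1 : (1 : ℝ) ≤ N := by exact_mod_cast hN0
  have hP2 := floor_lt hR hR1 hN0
  have hPgt : R / 4 * N / (2 * π) < (⌊R / 4 * N / (2 * π)⌋₊ : ℕ) + 1 := Nat.lt_floor_add_one _
  set P : ℕ := ⌊R / 4 * N / (2 * π)⌋₊ with hP
  rw [EN_eq N hN0, ← sum_filter_add_sum_filter_not (range N) (fun p => |rp N p| ≤ (P : ℤ)),
    sum_near N P hP2]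
  have hdec : (∑ q ∈ Icc (-(P : ℤ)) P, gN N (wd n) m q + ∑ p ∈ (range N).filter (fun p => ¬ |rp N p| ≤ (P : ℤ)),
      gN N (wd n) m (rp N p) + ∑ p ∈ range N, rN N (wd n) m p) -
        ∑ p ∈ Icc (-(P : ℤ)) P, deriv (fun χ => wE N m χ * Tf N (wd n) χ) (2 * π * p / N) =
      ∑ p ∈ range N, rN N (wd n) m p + ∑ p ∈ (range N).filter (fun p => ¬ |rp N p| ≤ (P : ℤ)),
      gN N (wd n) m (rp N p) := by
    have : ∑ q ∈ Icc (-(P : ℤ)) P, gN N (wd n) m q =
        ∑ p ∈ Icc (-(P : ℤ)) P, deriv (fun χ => wE N m χ * Tf N (wd n) χ) (2 * π * p / N) := rfl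
    rw [this]
    ring
  rw [hdec]
  have hchi : ∀ p : ℕ, p < N → |(2 * π * p / N : ℂ).re| ≤ 2 * π ∧ |(2 * π * p / N : ℂ).im| ≤ 1 / N := by
    intro p hp
    have e2 : ((2 : ℂ) * π * p / N) = ((2 * π * p / N : ℝ) : ℂ) := by push_cast; rfl
    rw [e2, Complex.ofReal_re, Complex.ofReal_im, abs_zero]
    refine ⟨?_, by positivity⟩
    rw [abs_of_nonneg (by positivity), div_le_iff₀ hN']
    have : (p : ℝ) ≤ N := by exact_mod_cast hp.le
    have := Real.pi_pos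
    gcongr
  have hr : ∀ p ∈ range N, ‖rN N (wd n) m p‖ ≤ 2 * |(m : ℝ)| * W * N * E3 := by
    intro p hp
    rw [mem_range] at hp
    have hwp := wE_bd N (by omega) m _ (hchi p hp).1 (hchi p hp).2
    have gen : ∀ t : ℂ, ‖t‖ ≤ E3 → ‖2 * Complex.I * m * N * (wE N m (2 * π * p / N) * t)‖ ≤
        2 * |(m : ℝ)| * W * N * E3 := by
      intro t ht
      have e : ‖2 * Complex.I * m * N * (wE N m (2 * π * p / N) * t)‖ =
          2 * |(m : ℝ)| * N * (‖wE N m (2 * π * p / N)‖ * ‖t‖) := by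
        rw [norm_mul, norm_mul, norm_mul, norm_mul, norm_mul, Complex.norm_I, Complex.norm_intCast]
        simp
      rw [e]
      have : ‖wE N m (2 * π * p / N)‖ * ‖t‖ ≤ W * E3 :=
        mul_le_mul hwp ht (norm_nonneg _) hW0.le
      calc 2 * |(m : ℝ)| * N * (‖wE N m (2 * π * p / N)‖ * ‖t‖) ≤ 2 * |(m : ℝ)| * N * (W * E3) := by
            gcongr
        _ = _ := by ring
    unfold rN
    split_ifs with h
    · rw [norm_neg]
      exact gen _ ((F3 p hp).1 (by omega))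
    · exact gen _ ((F3 p hp).2 (by omega))
  have hs1 : ‖∑ p ∈ range N, rN N (wd n) m p‖ ≤ 2 * |(m : ℝ)| * W * N ^ 2 * E3 := by
    refine (norm_sum_le_of_le _ hr).trans ?_
    rw [sum_const, card_range, nsmul_eq_mul]
    apply le_of_eq
    ring
  have hw2 : ∀ (x : ℝ) (w : ℂ), |x| ≤ π → ‖w - (x : ℂ)‖ = 1 / N → ‖wE N m w‖ ≤ W := by
    intro x w hx hw
    obtain ⟨h1, h2⟩ := near_pt hw
    refine wE_bd N (by omega) m w ?_ h2
    have h4 : |w.re| ≤ |x| + 1 / N := by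
      have := abs_sub_abs_le_abs_sub w.re x
      linarith
    linarith
  have hs2 : ‖∑ p ∈ (range N).filter (fun p => ¬ |rp N p| ≤ (P : ℤ)), gN N (wd n) m (rp N p)‖ ≤
      W * N ^ 2 * E3 := by
    have hg : ∀ p ∈ (range N).filter (fun p => ¬ |rp N p| ≤ (P : ℤ)), ‖gN N (wd n) m (rp N p)‖ ≤
        W * N * E3 := by
      intro p hp
      rw [mem_filter, mem_range] at hp
      obtain ⟨hp1, hp2⟩ := hp
      have hq1 : (P : ℤ) + 1 ≤ |rp N p| := by omega
      have hq2 : 2 * |rp N p| ≤ N := by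
        unfold rp
        split_ifs with h
        · rw [abs_of_nonneg (by omega)]; omega
        · rw [abs_of_neg (by omega)]; omega
      set x : ℝ := 2 * π * (rp N p : ℝ) / N with hx
      have hxc : (2 * π * ((rp N p : ℤ) : ℂ) / N : ℂ) = (x : ℂ) := by rw [hx]; push_cast; rfl
      have hqr1 : ((P : ℝ) + 1) ≤ |(rp N p : ℝ)| := by exact_mod_cast hq1
      have hqr2 : 2 * |(rp N p : ℝ)| ≤ N := by exact_mod_cast hq2
      have hxa : |x| = 2 * π * |(rp N p : ℝ)| / N := by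
        rw [hx, abs_div, abs_mul, abs_of_pos (by positivity : (0 : ℝ) < 2 * π), abs_of_pos hN']
      have hx1 : |x| ≤ π := by
        rw [hxa, div_le_iff₀ hN']
        nlinarith
      have hx2 : R / 4 ≤ |x| := by
        rw [hxa, le_div_iff₀ hN']
        have h6 : R / 4 * N / (2 * π) ≤ |(rp N p : ℝ)| := by linarith
        rw [div_le_iff₀ (by positivity)] at h6
        linarith
      unfold gN
      rw [hxc]
      have h7 : ∀ w, ‖w - (x : ℂ)‖ = 1 / (N : ℝ) → ‖wE N m w * Tf N (wd n) w‖ ≤ W * E3 := by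
        intro w hw
        rw [norm_mul]
        refine mul_le_mul (hw2 x w hx1 hw) ?_ (norm_nonneg _) hW0.le
        exact far_circ (by omega : 1 ≤ N) hR hR1 tR tτ F2 hx2 hx1 hw
      have h9 := cauchy ((wE_diff N m).mul (Tf_diff N (wd n))) (x : ℂ) (one_div_pos.2 hN') h7
      refine h9.trans ?_
      rw [div_div_eq_mul_div, div_one]
      linarith
    refine (norm_sum_le_of_le _ hg).trans ?_
    rw [sum_const, nsmul_eq_mul]
    have hcard : (((range N).filter (fun p => ¬ |rp N p| ≤ (P : ℤ))).card : ℝ) ≤ N := by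
      have := card_filter_le (range N) (fun p => ¬ |rp N p| ≤ (P : ℤ))
      rw [card_range] at this
      exact_mod_cast this
    calc _ ≤ (N : ℝ) * (W * N * E3) := by
          have : 0 ≤ W * N * E3 := by positivity
          gcongr
      _ = _ := by ring
  refine (norm_add_le _ _).trans ?_
  have : (2 * |(m : ℝ)| * W + W) * N ^ 2 * E3 =
    2 * |(m : ℝ)| * W * N ^ 2 * E3 + W * N ^ 2 * E3 := by ring
  rw [this]
  linarith

/-- the change of the function in the near part -/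
lemma near_gen {N : ℕ} (hN2 : 2 ≤ N) {R τ D : ℝ} (hR : 0 < R) (hR1 : R ≤ 1) (hD : 0 ≤ D) (m : ℤ)
    (tR : 1 / (N : ℝ) ≤ R / 8) (tτ : 1 / (N : ℝ) ≤ τ) {F G : ℂ → ℂ} (hF : Differentiable ℂ F)
    (hG : Differentiable ℂ G) (h : ∀ χ : ℂ, |χ.re| ≤ π → |χ.im| ≤ τ → ‖F χ - G χ‖ ≤ D) :
    ‖nearS R N (deriv fun χ => wE N m χ * F χ) - nearS R N (deriv fun χ => wE N m χ * G χ)‖ ≤
      Real.exp (1 + 2 * |(m : ℝ)|) * N ^ 2 * D := by
  have hπ := Real.pi_gt_three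
  set W : ℝ := Real.exp (1 + 2 * |(m : ℝ)|) with hW
  have hW0 : 0 < W := Real.exp_pos _
  have hN0 : 0 < N := by omega
  have hN' : (0 : ℝ) < N := by exact_mod_cast hN0
  have hP2 := floor_lt hR hR1 hN0
  have hPle : ((⌊R / 4 * N / (2 * π)⌋₊ : ℕ) : ℝ) ≤ R / 4 * N / (2 * π) := Nat.floor_le (by positivity)
  unfold nearS
  set P : ℕ := ⌊R / 4 * N / (2 * π)⌋₊ with hP
  rw [← sum_sub_distrib]
  have hb : ∀ p ∈ Icc (-(P : ℤ)) P, ‖deriv (fun χ => wE N m χ * F χ) (2 * π * p / N) -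
      deriv (fun χ => wE N m χ * G χ) (2 * π * p / N)‖ ≤ W * N * D := by
    intro p hp
    rw [mem_Icc] at hp
    have hpa : |(p : ℝ)| ≤ P := by
      rw [abs_le]
      constructor
      · have := hp.1
        exact_mod_cast this
      · have := hp.2
        exact_mod_cast this
    set x : ℝ := 2 * π * (p : ℝ) / N with hx
    have hxc : (2 * π * ((p : ℤ) : ℂ) / N : ℂ) = (x : ℂ) := by rw [hx]; push_cast; rfl
    have hxa : |x| = 2 * π * |(p : ℝ)| / N := by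
      rw [hx, abs_div, abs_mul, abs_of_pos (by positivity : (0 : ℝ) < 2 * π), abs_of_pos hN']
    have hx1 : |x| ≤ 1 := by
      rw [hxa, div_le_iff₀ hN', one_mul]
      have h6 : |(p : ℝ)| ≤ R / 4 * N / (2 * π) := hpa.trans hPle
      rw [le_div_iff₀ (by positivity)] at h6
      nlinarith
    rw [hxc]
    have d1 : DifferentiableAt ℂ (fun χ => wE N m χ * F χ) (x : ℂ) := ((wE_diff N m).mul hF) _
    have d2 : DifferentiableAt ℂ (fun χ => wE N m χ * G χ) (x : ℂ) := ((wE_diff N m).mul hG) _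
    have e : deriv (fun χ => wE N m χ * F χ) (x : ℂ) - deriv (fun χ => wE N m χ * G χ) (x : ℂ) =
        deriv (fun χ => wE N m χ * (F χ - G χ)) (x : ℂ) := by
      rw [← deriv_fun_sub d1 d2]
      congr 1
      funext χ
      ring
    rw [e]
    have hd : Differentiable ℂ (fun χ => wE N m χ * (F χ - G χ)) := (wE_diff N m).mul (hF.sub hG)
    have h7 : ∀ w, ‖w - (x : ℂ)‖ = 1 / (N : ℝ) → ‖wE N m w * (F w - G w)‖ ≤ W * D := by
      intro w hw
      obtain ⟨a1, a2⟩ := near_pt hw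
      have h4 : |w.re| ≤ |x| + 1 / N := by
        have := abs_sub_abs_le_abs_sub w.re x
        linarith
      rw [norm_mul]
      refine mul_le_mul (wE_bd N (by omega) m w ?_ a2) (h w ?_ (a2.trans tτ)) (norm_nonneg _) hW0.le
      · linarith
      · linarith
    have h9 := cauchy hd (x : ℂ) (one_div_pos.2 hN') h7
    refine h9.trans ?_
    rw [div_div_eq_mul_div, div_one]
    linarith
  refine (norm_sum_le_of_le _ hb).trans ?_
  rw [sum_const, nsmul_eq_mul, Int.card_Icc]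
  have hcard : (((P : ℤ) + 1 - (-(P : ℤ))).toNat : ℝ) ≤ N := by
    have : ((P : ℤ) + 1 - (-(P : ℤ))).toNat ≤ N := by omega
    exact_mod_cast this
  calc _ ≤ (N : ℝ) * (W * N * D) := by
        have : 0 ≤ W * N * D := by positivity
        gcongr
    _ = _ := by ring

lemma TN_diff (ρ : ℝ) (N : ℕ) : Differentiable ℂ (TN n ρ N) := by
  unfold TN
  refine Differentiable.const_mul (Differentiable.fun_sum fun c _ => ?_) _
  exact (Pool.Agent.Y941.TK.Qc_diff n N c.1 c.2).const_mul _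

/-- **P4** -/
theorem t_P4 : S_P4 := by
  intro h1 h2 h3 ρ₀ hρ₀
  obtain ⟨c, hc, h3⟩ := h3 h1
  obtain ⟨κ₂, hκ₂, h2a⟩ := h2 (1 / 6) (by norm_num)
  obtain ⟨κ₃, hκ₃, h2b⟩ := h2 (ρ₀ / 2) (half_pos hρ₀)
  refine ⟨min κ₂ κ₃ / 4, c / 256, by positivity, by positivity, ?_⟩
  intro n _ R hR hR1 m
  have hnn : (0 : ℝ) < n := by exact_mod_cast Nat.pos_of_ne_zero (NeZero.ne n)
  obtain ⟨τ₁, hτ₁, F1⟩ := h3 n (R / 8) (by positivity)
  obtain ⟨τ₂, hτ₂, F2⟩ := h2a n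
  obtain ⟨τ₃, hτ₃, F3⟩ := h2b n
  set μ : ℝ := min (min κ₂ κ₃ / 4) (c / 256 * n * R ^ 2) with hμ
  have hμ0 : 0 < μ := by positivity
  have hμ1 : 4 * μ ≤ c * n * (R / 8) ^ 2 := by
    have : μ ≤ c / 256 * n * R ^ 2 := min_le_right _ _
    have e : c * n * (R / 8) ^ 2 = 4 * (c / 256 * n * R ^ 2) := by ring
    linarith
  have hμ2 : 4 * μ ≤ κ₂ := by
    have h4 : μ ≤ min κ₂ κ₃ / 4 := min_le_left _ _
    have h5 : min κ₂ κ₃ ≤ κ₂ := min_le_left _ _
    linarith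
  have hμ3 : 4 * μ ≤ κ₃ := by
    have h4 : μ ≤ min κ₂ κ₃ / 4 := min_le_left _ _
    have h5 : min κ₂ κ₃ ≤ κ₃ := min_le_right _ _
    linarith
  set W : ℝ := Real.exp (1 + 2 * |(m : ℝ)|) with hW
  have hW0 : 0 < W := Real.exp_pos _
  set A₀ : ℝ := 2 * |(m : ℝ)| * W + W + W with hA₀
  have hA0 : 0 < A₀ := by positivity
  have hbig : ∀ᶠ N : ℕ in atTop, A₀ * (N : ℝ) ^ 2 ≤ Real.exp (N * μ) := by
    have h1 := (isLittleO_pow_exp_pos_mul_atTop 2 hμ0).bound (show (0 : ℝ) < 1 / A₀ by positivity)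
    have h2 := tendsto_natCast_atTop_atTop (R := ℝ) |>.eventually h1
    filter_upwards [h2] with N hN
    rw [Real.norm_of_nonneg (by positivity), Real.norm_of_nonneg (by positivity), one_div,
      ← div_eq_inv_mul, le_div_iff₀ hA0] at hN
    rw [mul_comm (N : ℝ) μ, mul_comm A₀]
    exact hN
  have t1 : ∀ᶠ N : ℕ in atTop, 1 / (N : ℝ) ≤ min (min (R / 8) (ρ₀ / 4)) (min τ₁ τ₃) := by
    have := tendsto_one_div_atTop_nhds_zero_nat (𝕜 := ℝ)
    exact (this.eventually_lt_const (u := min (min (R / 8) (ρ₀ / 4)) (min τ₁ τ₃)) (by positivity)).mono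
      fun N hN => hN.le
  filter_upwards [F1, F2, F3, pow_absorb n hμ0, hbig, t1, eventually_ge_atTop 2] with N F1 F2 F3 hpw hbig t1 hN
  have hN0 : 0 < N := by omega
  have hN' : (0 : ℝ) < N := by exact_mod_cast hN0
  have tR : 1 / (N : ℝ) ≤ R / 8 := t1.trans ((min_le_left _ _).trans (min_le_left _ _))
  have tρ : 1 / (N : ℝ) ≤ ρ₀ / 4 := t1.trans ((min_le_left _ _).trans (min_le_right _ _))
  have tτ1 : 1 / (N : ℝ) ≤ τ₁ := t1.trans ((min_le_right _ _).trans (min_le_left _ _))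
  have tτ3 : 1 / (N : ℝ) ≤ τ₃ := t1.trans ((min_le_right _ _).trans (min_le_right _ _))
  set B : ℝ := Real.exp (N * (G0 n - 4 * μ)) with hB
  have hB0 : 0 ≤ B := (Real.exp_pos _).le
  set E : ℝ := Real.exp (N * (G0 n - 3 * μ)) with hE
  have hE0 : 0 ≤ E := (Real.exp_pos _).le
  have hle : ∀ κ : ℝ, 4 * μ ≤ κ → Real.exp (N * (G0 n - κ)) ≤ B := by
    intro κ hκ
    exact Real.exp_le_exp.2 (mul_le_mul_of_nonneg_left (by linarith) hN'.le)
  have hBE : (N : ℝ) ^ (2 * n) * B ≤ E := by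
    have h5 : (N : ℝ) ^ (2 * n) ≤ Real.exp (N * μ) := by
      have : 0 ≤ (N : ℝ) ^ (2 * n) := by positivity
      linarith
    calc (N : ℝ) ^ (2 * n) * B ≤ Real.exp (N * μ) * B := by gcongr
      _ = E := by
        rw [hB, hE, ← Real.exp_add]
        congr 1
        ring
  have G1 : ∀ χ : ℂ, |χ.re| ≤ π → |χ.im| ≤ τ₁ → R / 8 ≤ |χ.re| → ‖Tf N (wd n) χ‖ ≤ E := fun χ a b d =>
    (Tf_gen hN hB0 (fun i j hij χ a b d => (F1 i j hij χ a b d).trans (hle _ hμ1)) χ a b d).trans hBE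
  have G2 : ∀ p < N, (2 * p ≤ N → ‖Thi N (wd n) p‖ ≤ E) ∧
      (N ≤ 2 * p → ‖Tf N (wd n) (2 * π * p / N) - Thi N (wd n) p‖ ≤ E) := by
    intro p hp
    have := Thi_gen (n := n) hN hτ₂ hB0
      (fun i j hij χ a b d => (F2 i j hij χ a b d).trans (hle _ hμ2)) p hp
    exact ⟨fun q => (this.1 q).trans hBE, fun q => (this.2 q).trans hBE⟩
  obtain ⟨u, u', huu, hcj⟩ := Run7.h260.VX.cJC' N hN
  have G3 : ∀ χ : ℂ, |χ.re| ≤ π → |χ.im| ≤ τ₃ → ‖Tf N (wd n) χ - TN n ρ₀ N χ‖ ≤ E := by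
    intro χ a b
    have e : Tf N (wd n) χ - TN n ρ₀ N χ = (-1) ^ n *
        (∑ c ∈ cfg n N, co n N c.1 c.2 * Qc n N c.1 c.2 χ -
          ∑ c ∈ NC n (fun _ => ρ₀) N, co n N c.1 c.2 * Qc n N c.1 c.2 χ) := by
      rw [Tf_sum hcj, huu]
      unfold TN
      ring
    rw [e, norm_mul, norm_pow, norm_neg, norm_one, one_pow, one_mul]
    exact (rest_gen hN hB0 (by linarith)
      (fun i j hij χ a b d => (F3 i j hij χ a b d).trans (hle _ hμ3)) χ a b).trans hBE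
  have K1 : ‖SB N (wd n) m - nearS R N (deriv fun χ => wE N m χ * Tf N (wd n) χ)‖ ≤
      (2 * |(m : ℝ)| * W + W) * N ^ 2 * E := err_gen hN hR hR1 hE0 m tR tτ1 G1 G2
  have K2 := near_gen hN hR hR1 hE0 m tR tτ3 (Tf_diff N (wd n)) (TN_diff (n := n) ρ₀ N) G3
  have K3 : SB N (wd n) m - nearS R N (deriv fun χ => wE N m χ * TN n ρ₀ N χ) =
      (SB N (wd n) m - nearS R N (deriv fun χ => wE N m χ * Tf N (wd n) χ)) +
      (nearS R N (deriv fun χ => wE N m χ * Tf N (wd n) χ) -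
        nearS R N (deriv fun χ => wE N m χ * TN n ρ₀ N χ)) := by ring
  rw [K3]
  refine (norm_add_le _ _).trans ((add_le_add K1 K2).trans ?_)
  calc (2 * |(m : ℝ)| * W + W) * N ^ 2 * E + W * N ^ 2 * E = A₀ * N ^ 2 * E := by rw [hA₀]; ring
    _ ≤ Real.exp (N * μ) * E := by gcongr
    _ = Real.exp (N * (G0 n - 2 * μ)) := by
        rw [hE, ← Real.exp_add]
        congr 1
        ring
    _ ≤ Real.exp (N * (G0 n - μ)) := by
        refine Real.exp_le_exp.2 (mul_le_mul_of_nonneg_left ?_ hN'.le)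
        linarith

end Run7.h221.VU
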